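import Pool.Agent.N520.RO.Stm4b

/-!
# RO2/SLICE: boundary points of slices carry plates (helper441, for helper520); an adaptation of
`good_of_boundary` in `Pool.Agent.R522.Mk.Rk1`.
-/

set_option autoImplicit false

open Set Filter Topology Metric
open Pool.Agent.W689.Mk Pool.Agent.TH94.MK Pool.Agent.R522.Mk.Rk
open Pool.Agent.N520.RO

namespace Pool.Agent.N441.RO

/-- **RO2/SLICE.** -/
theorem t_slice : S_SLICE := by
  intro E F Γ _ _ _ _ _ _ _ hol W B hBl P hPc Ω hΩ hinv hpd C0 hC0 hC0Ω hcc δ hδ hV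
  have : ProperSpace E := FiniteDimensional.proper_real E
  obtain ⟨r, hr, hrΩ⟩ := hC0.exists_cthickening_subset_open hΩ hC0Ω
  refine ⟨δ * r, by positivity, fun x p hp hpΩ => ?_⟩
  obtain ⟨a, haΩ, ha⟩ := mem_closure_iff_seq_limit.1 hp
  choose γ c hc hγc using fun k => hcc (x + (a k : E)) (haΩ k)
  have hax : Tendsto (fun k => x + (a k : E)) atTop (𝓝 (x + (p : E))) :=
    tendsto_const_nhds.add ((continuous_subtype_val.tendsto p).comp ha)
  have hC1 : IsCompact (cthickening r C0) := hC0.cthickening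
  have hin : ∀ k (w : E), ‖w‖ ≤ r → c k + w ∈ cthickening r C0 := by
    intro k w hw
    refine mem_cthickening_of_dist_le _ _ _ _ (hc k) ?_
    rw [dist_eq_norm, add_sub_cancel_left]; exact hw
  have hmove : ∀ k (w : W), hol (γ k) (c k + (w : E)) = x + (a k : E) + (B (γ k) w : E) := by
    intro k w
    rw [hol_add, hγc k]
    exact congrArg (fun t : E => x + (a k : E) + t) (hBl (γ k) w)
  -- first claim
  have claim1 : ∀ q ∈ Ω, ∃ ε > 0, ∀ᶠ k in atTop, ∀ w : W, ‖w‖ ≤ r →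
      x + (a k : E) + (B (γ k) w : E) ∉ closedBall q ε := by
    intro q hq
    obtain ⟨ε, hε, hεΩ⟩ := Metric.nhds_basis_closedBall.mem_iff.1 (hΩ.mem_nhds hq)
    refine ⟨ε, hε, ?_⟩
    have hC : IsCompact (cthickening r C0 ∪ closedBall q ε) := hC1.union (isCompact_closedBall _ _)
    have hCΩ : cthickening r C0 ∪ closedBall q ε ⊆ Ω := union_subset hrΩ hεΩ
    have hF := hpd _ hC hCΩ
    set G := {γ : Γ | ∃ c ∈ cthickening r C0 ∪ closedBall q ε,
      hol γ c ∈ cthickening r C0 ∪ closedBall q ε} with hFdef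
    have hT : IsCompact (⋃ g ∈ G, hol g '' C0) :=
      hF.isCompact_biUnion fun g _ => hC0.image (hol_cont g)
    have hpT : x + (p : E) ∉ ⋃ g ∈ G, hol g '' C0 := by
      intro hcon
      obtain ⟨g, _, hcon⟩ := mem_iUnion₂.1 hcon
      obtain ⟨c', hc', hcc'⟩ := hcon
      apply hpΩ
      rw [← hcc']
      exact hinv g c' (hC0Ω hc')
    have hev : ∀ᶠ k in atTop, x + (a k : E) ∉ ⋃ g ∈ G, hol g '' C0 :=
      hax.eventually (hT.isClosed.isOpen_compl.mem_nhds hpT)
    filter_upwards [hev] with k hk w hw hcon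
    apply hk
    refine mem_iUnion₂.2 ⟨γ k, ?_, c k, hc k, hγc k⟩
    refine ⟨c k + (w : E), Or.inl (hin k w hw), Or.inr ?_⟩
    rw [hmove]; exact hcon
  choose g hg1 hg2 using fun k => hV (γ k)
  have hg3 : ∀ k f, ‖g k f‖ ≤ δ * r → ∃ v : W, ‖v‖ ≤ r ∧ B (γ k) v = g k f := by
    intro k f hf
    refine ⟨(B (γ k)).symm (g k f), ?_, by simp⟩
    exact le_of_mul_le_mul_left ((hg2 k f).trans hf) hδ
  obtain ⟨k0, hk0, φ, hφ, hφt⟩ := hPc.tendsto_subseq hg1
  have hφa := hφ.tendsto_atTop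
  refine ⟨k0, ⟨hk0, fun k => a (φ k), fun k => g (φ k), ha.comp hφa, hφt, ?_⟩, ?_⟩
  · intro j f hf
    obtain ⟨v, hv, hve⟩ := hg3 (φ j) f hf
    show x + ((a (φ j) + g (φ j) f : W) : E) ∈ Ω
    rw [← hve, Submodule.coe_add, ← add_assoc, ← hmove]
    exact hinv _ _ (hrΩ (hin _ v hv))
  · intro f hf hq
    have hq' : x + ((p + k0 f : W) : E) ∈ Ω := hq
    obtain ⟨ε, hε, hev⟩ := claim1 _ hq'
    have h0 : Tendsto (fun j => g (φ j) f) atTop (𝓝 (k0 f)) :=
      ((ContinuousLinearMap.apply ℝ W f).continuous.tendsto k0).comp hφt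
    have h1 : Tendsto (fun k => x + ((a (φ k) + g (φ k) f : W) : E)) atTop
        (𝓝 (x + ((p + k0 f : W) : E))) :=
      tendsto_const_nhds.add ((continuous_subtype_val.tendsto _).comp ((ha.comp hφa).add h0))
    have h2 : ∀ᶠ j in atTop, ‖g (φ j) f‖ < δ * r := h0.norm.eventually_lt_const hf
    obtain ⟨k, hk1, hk2, hk4⟩ := ((h1.eventually (closedBall_mem_nhds _ hε)).and
      ((hφa.eventually hev).and h2)).exists
    obtain ⟨v, hv, hve⟩ := hg3 (φ k) f hk4.le
    refine hk2 v hv ?_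
    rw [hve, add_assoc, ← Submodule.coe_add]; exact hk1

end Pool.Agent.N441.RO
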